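import Mathlib

/-! Deterministic game (section 3 of note 2821), abstract part. -/

namespace Pool.Agent.H63.WK

open Finset

/-- a system of representatives: one point of `P` in each cell met -/
theorem exists_reps {V C : Type*} [DecidableEq V] [DecidableEq C] (α : V → C) (P : Finset V) :
    ∃ P1 ⊆ P, P1.image α = P.image α ∧ Set.InjOn α (P1 : Set V) := by
  classical
  rcases isEmpty_or_nonempty V with hV | hV
  · refine ⟨P, Finset.Subset.refl P, rfl, ?_⟩
    intro a _
    exact (hV.false a).elim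
  have h : ∀ c : C, c ∈ P.image α → ∃ v ∈ P, α v = c := fun c hc => by
    simpa using hc
  choose! r hr1 hr2 using h
  refine ⟨(P.image α).image r, ?_, ?_, ?_⟩
  · intro v hv
    obtain ⟨c, hc, rfl⟩ := Finset.mem_image.mp hv
    exact hr1 c hc
  · rw [Finset.image_image]
    ext c
    constructor
    · intro hc
      obtain ⟨c', hc', rfl⟩ := Finset.mem_image.mp hc
      simp only [Function.comp]
      rw [hr2 c' hc']
      exact hc'
    · intro hc
      refine Finset.mem_image.mpr ⟨c, hc, ?_⟩
      simp only [Function.comp]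
      exact hr2 c hc
  · intro a ha b hb hab
    obtain ⟨c, hc, rfl⟩ := Finset.mem_image.mp (Finset.mem_coe.mp ha)
    obtain ⟨c', hc', rfl⟩ := Finset.mem_image.mp (Finset.mem_coe.mp hb)
    rw [hr2 c hc, hr2 c' hc'] at hab
    rw [hab]

/-- **Mates.** If `P` meets at least `x` cells of the first kind and at most `y` cells of the
second kind, there are `x - y` points of `P` in different cells of the first kind, each with a
mate in `P` in the same cell of the second kind. -/
theorem exists_mates {V C D : Type*} [DecidableEq V] [DecidableEq C] [DecidableEq D]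
    (α : V → C) (γ : V → D) (P : Finset V) (N : ℕ)
    (h : (P.image γ).card + N ≤ (P.image α).card) :
    ∃ Ps ⊆ P, Ps.card = N ∧ Set.InjOn α (Ps : Set V) ∧
      ∃ m : V → V, ∀ a ∈ Ps, m a ∈ P ∧ m a ≠ a ∧ γ (m a) = γ a := by
  obtain ⟨P1, hP1, hP1i, hP1j⟩ := exists_reps α P
  obtain ⟨P2, hP2, hP2i, hP2j⟩ := exists_reps γ P1
  have h1 : P1.card = (P.image α).card := by
    rw [← hP1i, Finset.card_image_of_injOn hP1j]
  have h2 : P2.card ≤ (P.image γ).card := by
    rw [← Finset.card_image_of_injOn hP2j]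
    exact Finset.card_le_card (Finset.image_subset_image (hP2.trans hP1))
  have h3 : N ≤ (P1 \ P2).card := by
    rw [Finset.card_sdiff_of_subset hP2]
    omega
  obtain ⟨Ps, hPs, hPsc⟩ := Finset.exists_subset_card_eq h3
  have h4 : ∀ a : V, a ∈ P1 → ∃ b ∈ P2, γ b = γ a := by
    intro a ha
    have : γ a ∈ P2.image γ := by
      rw [hP2i]
      exact Finset.mem_image_of_mem γ ha
    simpa using this
  choose! m hm1 hm2 using h4
  refine ⟨Ps, ?_, hPsc, ?_, m, ?_⟩
  · intro a ha
    exact hP1 (Finset.mem_sdiff.mp (hPs ha)).1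
  · intro a ha b hb hab
    exact hP1j (Finset.mem_coe.mpr (Finset.mem_sdiff.mp (hPs (Finset.mem_coe.mp ha))).1)
      (Finset.mem_coe.mpr (Finset.mem_sdiff.mp (hPs (Finset.mem_coe.mp hb))).1) hab
  · intro a ha
    have ha1 := Finset.mem_sdiff.mp (hPs ha)
    refine ⟨hP1 (hP2 (hm1 a ha1.1)), ?_, hm2 a ha1.1⟩
    intro h5
    apply ha1.2
    rw [← h5]
    exact hm1 a ha1.1

/-- conflict pairs of the (one sided) rule `h` -/
def confl {V : Type*} [DecidableEq V] (h : V → V → V) (P Q : Finset V) : Finset (V × V) :=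
  (P ×ˢ Q).filter (fun p => h p.1 p.2 ∈ P ∧ h p.1 p.2 ≠ p.1)

/-- the number of conflict pairs from the number of hit slots -/
theorem confl_ge {V R Y : Type*} [DecidableEq V] [DecidableEq R] [DecidableEq Y]
    (h : V → V → V)
    (P Q : Finset V) (Ps : Finset V) (hPs : Ps ⊆ P) (m : V → V)
    (hm : ∀ a ∈ Ps, m a ∈ P ∧ m a ≠ a)
    (B : ℕ) (H : V → Finset Y) (z : V → Y → V) (row : V → R)
    (hz : ∀ a ∈ Ps, ∀ l ∈ H a, z a l ∈ Q)
    (hrow : ∀ a ∈ Ps, ∀ l ∈ H a, ∀ l' ∈ H a, row (z a l) = row (z a l') → l = l')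
    (hlost : ∀ a ∈ Ps, ((H a).filter (fun l => h (m a) (z a l) ≠ a)).card ≤ B) :
    ∑ a ∈ Ps, (H a).card ≤ (confl h P Q).card + B * Ps.card := by
  classical
  set G : V → Finset Y := fun a => (H a).filter (fun l => h (m a) (z a l) = a) with hG
  have h1 : ∀ a ∈ Ps, (H a).card ≤ (G a).card + B := by
    intro a ha
    have h2 := Finset.card_filter_add_card_filter_not (s := H a)
      (fun l => h (m a) (z a l) = a)
    have h3 := hlost a ha
    have h4 : ((H a).filter (fun l => ¬ h (m a) (z a l) = a)).card ≤ B := h3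
    have h5 : (G a).card = ((H a).filter (fun l => h (m a) (z a l) = a)).card := rfl
    omega
  have h2 : ∑ a ∈ Ps, (G a).card ≤ (confl h P Q).card := by
    rw [← Finset.card_sigma]
    apply Finset.card_le_card_of_injOn (fun p : (_ : V) × Y => (m p.1, z p.1 p.2))
    · rintro ⟨a, l⟩ hp
      have hp' := Finset.mem_sigma.mp (Finset.mem_coe.mp hp)
      have ha : a ∈ Ps := hp'.1
      have hl := Finset.mem_filter.mp hp'.2
      show (m a, z a l) ∈ ((confl h P Q : Finset (V × V)) : Set (V × V))
      rw [Finset.mem_coe]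
      unfold confl
      rw [Finset.mem_filter, Finset.mem_product]
      refine ⟨⟨(hm a ha).1, hz a ha l hl.1⟩, ?_, ?_⟩
      · show h (m a) (z a l) ∈ P
        rw [hl.2]
        exact hPs ha
      · show h (m a) (z a l) ≠ m a
        rw [hl.2]
        exact (hm a ha).2.symm
    · rintro ⟨a, l⟩ hp ⟨a', l'⟩ hp' heq
      have hq := Finset.mem_sigma.mp (Finset.mem_coe.mp hp)
      have hq' := Finset.mem_sigma.mp (Finset.mem_coe.mp hp')
      have hl := Finset.mem_filter.mp hq.2
      have hl' := Finset.mem_filter.mp hq'.2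
      have h3 : m a = m a' ∧ z a l = z a' l' := by
        simpa using heq
      have h4 : a = a' := by
        have e1 : h (m a) (z a l) = a := hl.2
        have e2 : h (m a') (z a' l') = a' := hl'.2
        rw [← e1, h3.1, h3.2, e2]
      subst h4
      have h5 : l = l' := hrow a hq.1 l hl.1 l' hl'.1 (by rw [h3.2])
      rw [h5]
  calc ∑ a ∈ Ps, (H a).card ≤ ∑ a ∈ Ps, ((G a).card + B) := Finset.sum_le_sum h1
    _ = ∑ a ∈ Ps, (G a).card + B * Ps.card := by
        rw [Finset.sum_add_distrib, Finset.sum_const, smul_eq_mul, mul_comm]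
    _ ≤ _ := by omega

end Pool.Agent.H63.WK
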