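import Mathlib

/-! Peeling lemma (section 2 (a), (b) of note 2821): if every family `F` of bundles has total
excess at most `q |F|`, the rows can be distributed so that every bundle loses at most `2 q`
rows. -/

namespace Pool.Agent.H63.WK

open Finset

section peel

variable {B R : Type*} [DecidableEq B] [Fintype R] [DecidableEq R]

/-- number of members of `F` which contain the row `r` -/
def cnt (mem : B → Finset R) (F : Finset B) (r : R) : ℕ := (F.filter (fun b => r ∈ mem b)).card

/-- excess of the row `r` -/
def exc (mem : B → Finset R) (F : Finset B) (r : R) : ℕ := cnt mem F r - 1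

/-- the rows of `b` contained in another member of `F` -/
def shared (mem : B → Finset R) (F : Finset B) (b : B) : Finset R :=
  (mem b).filter (fun r => ∃ b' ∈ F, b' ≠ b ∧ r ∈ mem b')

theorem sum_shared_le (mem : B → Finset R) (F : Finset B) :
    ∑ b ∈ F, (shared mem F b).card ≤ 2 * ∑ r, exc mem F r := by
  have h1 : ∑ b ∈ F, (shared mem F b).card =
      ∑ r, (F.filter (fun b => r ∈ shared mem F b)).card := by
    have h2 := Finset.sum_card_bipartiteAbove_eq_sum_card_bipartiteBelow
      (s := F) (t := (univ : Finset R)) (fun b r => r ∈ shared mem F b)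
    have h3 : ∀ b ∈ F, (Finset.bipartiteAbove (fun b r => r ∈ shared mem F b) univ b).card =
        (shared mem F b).card := by
      intro b _
      congr 1
      ext r
      simp [Finset.bipartiteAbove]
    have h4 : ∀ r ∈ (univ : Finset R),
        (Finset.bipartiteBelow (fun b r => r ∈ shared mem F b) F r).card =
        (F.filter (fun b => r ∈ shared mem F b)).card := by
      intro r _
      rfl
    rw [Finset.sum_congr rfl h3, Finset.sum_congr rfl h4] at h2
    exact h2
  rw [h1, Finset.mul_sum]
  apply Finset.sum_le_sum
  intro r _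
  by_cases h : 2 ≤ cnt mem F r
  · have h5 : (F.filter (fun b => r ∈ shared mem F b)).card ≤ cnt mem F r := by
      apply Finset.card_le_card
      intro b hb
      rw [Finset.mem_filter] at hb ⊢
      exact ⟨hb.1, (Finset.mem_filter.mp hb.2).1⟩
    unfold exc
    omega
  · have h6 : (F.filter (fun b => r ∈ shared mem F b)) = ∅ := by
      rw [Finset.filter_eq_empty_iff]
      intro b hb hr
      apply h
      obtain ⟨hrb, b', hb', hne, hrb'⟩ := Finset.mem_filter.mp hr
      unfold cnt
      have : ({b, b'} : Finset B) ⊆ F.filter (fun b => r ∈ mem b) := by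
        intro c hc
        rw [Finset.mem_insert, Finset.mem_singleton] at hc
        rcases hc with rfl | rfl
        · exact Finset.mem_filter.mpr ⟨hb, hrb⟩
        · exact Finset.mem_filter.mpr ⟨hb', hrb'⟩
      calc 2 = ({b, b'} : Finset B).card := (Finset.card_pair (Ne.symm hne)).symm
        _ ≤ _ := Finset.card_le_card this
    rw [h6]
    simp

theorem exists_small_shared (mem : B → Finset R) (F : Finset B) (q : ℕ) (hF : F.Nonempty)
    (h : ∑ r, exc mem F r ≤ q * F.card) : ∃ b ∈ F, (shared mem F b).card ≤ 2 * q := by
  by_contra hcon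
  push Not at hcon
  have h1 : ∑ b ∈ F, (shared mem F b).card ≤ 2 * (q * F.card) :=
    (sum_shared_le mem F).trans (by omega)
  have h2 : F.card * (2 * q + 1) ≤ ∑ b ∈ F, (shared mem F b).card := by
    rw [← smul_eq_mul]
    exact Finset.card_nsmul_le_sum F _ _ (fun b hb => hcon b hb)
  have h3 : 0 < F.card := hF.card_pos
  nlinarith

/-- **Peeling.** -/
theorem peel (mem : B → Finset R) (q : ℕ) (F : Finset B)
    (h : ∀ F' ⊆ F, ∑ r, exc mem F' r ≤ q * F'.card) :
    ∃ s : R → Option B, ∀ b ∈ F, ((mem b).filter (fun r => s r ≠ some b)).card ≤ 2 * q := by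
  induction F using Finset.strongInduction with
  | H F ih =>
    rcases F.eq_empty_or_nonempty with rfl | hF
    · exact ⟨fun _ => none, by simp⟩
    obtain ⟨b, hb, hbs⟩ := exists_small_shared mem F q hF (h F (Finset.Subset.refl F))
    obtain ⟨s', hs'⟩ := ih (F.erase b) (Finset.erase_ssubset hb)
      (fun F' hF' => h F' (hF'.trans (Finset.erase_subset b F)))
    refine ⟨fun r => if r ∈ mem b ∧ ∀ b' ∈ F.erase b, r ∉ mem b' then some b else s' r, ?_⟩
    intro c hc
    by_cases hcb : c = b
    · subst hcb
      refine le_trans (Finset.card_le_card ?_) hbs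
      intro r hr
      rw [Finset.mem_filter] at hr
      unfold shared
      rw [Finset.mem_filter]
      refine ⟨hr.1, ?_⟩
      by_contra hcon
      push Not at hcon
      apply hr.2
      show (if r ∈ mem c ∧ ∀ b' ∈ F.erase c, r ∉ mem b' then some c else s' r) = some c
      rw [if_pos]
      refine ⟨hr.1, ?_⟩
      intro b' hb'
      rw [Finset.mem_erase] at hb'
      exact hcon b' hb'.2 hb'.1
    · have hc' : c ∈ F.erase b := Finset.mem_erase.mpr ⟨hcb, hc⟩
      refine le_trans (Finset.card_le_card ?_) (hs' c hc')
      intro r hr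
      rw [Finset.mem_filter] at hr ⊢
      refine ⟨hr.1, ?_⟩
      intro h1
      apply hr.2
      show (if r ∈ mem b ∧ ∀ b' ∈ F.erase b, r ∉ mem b' then some b else s' r) = some c
      rw [if_neg]
      · exact h1
      · rintro ⟨_, h2⟩
        exact h2 c hc' hr.1

end peel

end Pool.Agent.H63.WK
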