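import Mathlib

/-! Numerical part of the peeling lemma (section 2 (c) of note 2821). -/

namespace Pool.Agent.H63.WK

open Finset

/-- the exponents `k_e = k0 2^e` -/
def kk (k0 e : ℕ) : ℕ := k0 * 2 ^ e

theorem kk_mono {k0 i j : ℕ} (h : i ≤ j) : kk k0 i ≤ kk k0 j := by
  unfold kk
  exact Nat.mul_le_mul_left _ (Nat.pow_le_pow_right (by norm_num) h)

theorem kk_add_two (k0 e : ℕ) : kk k0 (e + 2) = 4 * kk k0 e := by
  unfold kk
  ring

theorem le_kk {k0 : ℕ} (hk : 1 ≤ k0) (e : ℕ) : k0 + e ≤ kk k0 e := by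
  unfold kk
  have h1 : e + 1 ≤ 2 ^ e := Nat.lt_two_pow_self
  calc k0 + e ≤ k0 + k0 * e := by nlinarith
    _ = k0 * (e + 1) := by ring
    _ ≤ k0 * 2 ^ e := Nat.mul_le_mul_left _ h1

theorem sum_geom_le (E : ℕ) : ∑ e : Fin E, (1 / 2 : ℝ) ^ (e : ℕ) ≤ 2 := by
  rw [Fin.sum_univ_eq_sum_range (fun e => (1 / 2 : ℝ) ^ e) E]
  have h := geom_sum_eq (show (1 / 2 : ℝ) ≠ 1 by norm_num) E
  rw [h]
  have h2 : (0 : ℝ) < (1 / 2) ^ E := by positivity
  rw [div_le_iff_of_neg (by norm_num)]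
  linarith

section

variable {E M k0 w : ℕ} {fe : Fin E → ℕ} {f : ℕ} {a : Fin E → ℝ}

theorem a_le_one (hM : 0 < M)
    (hfe : ∀ e, fe e * 2 ^ (62 * kk k0 e) ≤ 2 * M)
    (ha : ∀ e, a e ≤ (fe e : ℝ) * 2 ^ (46 * kk k0 e) / M) (e : Fin E) :
    a e ≤ 2 / 2 ^ (16 * kk k0 e) := by
  refine (ha e).trans ?_
  have hM' : (0 : ℝ) < M := by exact_mod_cast hM
  rw [div_le_div_iff₀ hM' (by positivity)]
  have h1 : ((fe e : ℝ)) * 2 ^ (62 * kk k0 e) ≤ 2 * M := by exact_mod_cast hfe e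
  calc (fe e : ℝ) * 2 ^ (46 * kk k0 e) * 2 ^ (16 * kk k0 e)
      = (fe e : ℝ) * 2 ^ (62 * kk k0 e) := by
        rw [mul_assoc, ← pow_add]
        congr 2
        ring
    _ ≤ 2 * M := h1

theorem a_le_two (hM : 0 < M) (hf : ∀ e, fe e ≤ f)
    (hw : 2 ^ (16 * w) * f ≤ M)
    (ha : ∀ e, a e ≤ (fe e : ℝ) * 2 ^ (46 * kk k0 e) / M) (e : Fin E) :
    a e ≤ 2 ^ (46 * kk k0 e) / 2 ^ (16 * w) := by
  refine (ha e).trans ?_
  have hM' : (0 : ℝ) < M := by exact_mod_cast hM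
  rw [div_le_div_iff₀ hM' (by positivity)]
  have h1 : (fe e : ℝ) ≤ f := by exact_mod_cast hf e
  have h2 : (2 : ℝ) ^ (16 * w) * f ≤ M := by exact_mod_cast hw
  calc (fe e : ℝ) * 2 ^ (46 * kk k0 e) * 2 ^ (16 * w)
      ≤ (f : ℝ) * 2 ^ (46 * kk k0 e) * 2 ^ (16 * w) := by
        gcongr
    _ = 2 ^ (46 * kk k0 e) * (2 ^ (16 * w) * f) := by ring
    _ ≤ 2 ^ (46 * kk k0 e) * M := by
        gcongr

theorem two_pow_div_le {x y : ℕ} {c : ℝ} (hc : 0 ≤ c) (h : x ≤ y) :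
    c / (2 : ℝ) ^ y ≤ c / 2 ^ x :=
  div_le_div_of_nonneg_left hc (by positivity) (pow_le_pow_right₀ (by norm_num) h)

theorem z_a_le (ha0 : ∀ e, 0 ≤ a e) (hM : 0 < M) (hf : ∀ e, fe e ≤ f)
    (hfe : ∀ e, fe e * 2 ^ (62 * kk k0 e) ≤ 2 * M)
    (hw : 2 ^ (16 * w) * f ≤ M)
    (ha : ∀ e, a e ≤ (fe e : ℝ) * 2 ^ (46 * kk k0 e) / M) (e : Fin E) :
    2 ^ w * a e ≤ 2 / 2 ^ (kk k0 e) := by
  rcases le_or_gt w (15 * kk k0 e) with h | h
  · calc 2 ^ w * a e ≤ 2 ^ (15 * kk k0 e) * (2 / 2 ^ (16 * kk k0 e)) := by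
          have h1 := ha0 e
          gcongr
          · norm_num
          · exact a_le_one hM hfe ha e
      _ = 2 / 2 ^ (kk k0 e) := by
          rw [show 16 * kk k0 e = 15 * kk k0 e + kk k0 e by ring, pow_add]
          field_simp
  · calc 2 ^ w * a e ≤ 2 ^ w * (2 ^ (46 * kk k0 e) / 2 ^ (16 * w)) := by
          gcongr
          exact a_le_two hM hf hw ha e
      _ = 2 ^ (46 * kk k0 e) / 2 ^ (15 * w) := by
          rw [show 16 * w = 15 * w + w by ring, pow_add]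
          field_simp
      _ ≤ 2 ^ (46 * kk k0 e) / 2 ^ (47 * kk k0 e) := by
          apply two_pow_div_le (by positivity)
          omega
      _ = 1 / 2 ^ (kk k0 e) := by
          rw [show 47 * kk k0 e = 46 * kk k0 e + kk k0 e by ring, pow_add]
          field_simp
      _ ≤ 2 / 2 ^ (kk k0 e) := by
          gcongr
          norm_num

theorem z_sum_le (ha0 : ∀ e, 0 ≤ a e) (hk : 2 ≤ k0) (hM : 0 < M) (hf : ∀ e, fe e ≤ f)
    (hfe : ∀ e, fe e * 2 ^ (62 * kk k0 e) ≤ 2 * M)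
    (hw : 2 ^ (16 * w) * f ≤ M)
    (ha : ∀ e, a e ≤ (fe e : ℝ) * 2 ^ (46 * kk k0 e) / M) :
    2 ^ w * ∑ e, a e ≤ 1 := by
  rw [Finset.mul_sum]
  calc ∑ e, 2 ^ w * a e ≤ ∑ e : Fin E, 1 / 2 * (1 / 2 : ℝ) ^ (e : ℕ) := by
        apply Finset.sum_le_sum
        intro e _
        refine (z_a_le ha0 hM hf hfe hw ha e).trans ?_
        have h1 := le_kk (show 1 ≤ k0 by omega) (e : ℕ)
        have h2 : (2 : ℝ) ^ (2 + (e : ℕ)) ≤ 2 ^ (kk k0 e) :=
          pow_le_pow_right₀ (by norm_num) (by omega)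
        calc (2 : ℝ) / 2 ^ (kk k0 e) ≤ 2 / 2 ^ (2 + (e : ℕ)) := by gcongr
          _ = 1 / 2 * (1 / 2 : ℝ) ^ (e : ℕ) := by
            rw [pow_add, one_div, inv_pow]
            field_simp
    _ = 1 / 2 * ∑ e : Fin E, (1 / 2 : ℝ) ^ (e : ℕ) := by rw [Finset.mul_sum]
    _ ≤ 1 := by
        have := sum_geom_le E
        linarith

/-- the pairs of levels at distance at least two -/
def prs (E : ℕ) : Finset (Fin E × Fin E) := univ.filter (fun p => p.1.1 + 2 ≤ p.2.1)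

theorem z_term_le (ha0 : ∀ e, 0 ≤ a e) (hM : 0 < M) (hf : ∀ e, fe e ≤ f)
    (hfe : ∀ e, fe e * 2 ^ (62 * kk k0 e) ≤ 2 * M)
    (hw : 2 ^ (16 * w) * f ≤ M)
    (ha : ∀ e, a e ≤ (fe e : ℝ) * 2 ^ (46 * kk k0 e) / M) (j : Fin E) (i : ℕ)
    (hj : j.1 = i + 2) :
    2 ^ w * (a j * 2 ^ (46 * kk k0 i)) ≤ 2 / 2 ^ (2 * kk k0 i) := by
  have hkj : kk k0 j.1 = 4 * kk k0 i := by rw [hj, kk_add_two]
  rcases le_or_gt w (16 * kk k0 i) with h | h
  · have h1 := a_le_one hM hfe ha j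
    rw [hkj] at h1
    calc 2 ^ w * (a j * 2 ^ (46 * kk k0 i))
        ≤ 2 ^ (16 * kk k0 i) * (2 / 2 ^ (16 * (4 * kk k0 i)) * 2 ^ (46 * kk k0 i)) := by
          have h2 := ha0 j
          gcongr
          norm_num
      _ = 2 / 2 ^ (2 * kk k0 i) := by
          rw [show 16 * (4 * kk k0 i) = 16 * kk k0 i + 46 * kk k0 i + 2 * kk k0 i by ring,
            pow_add, pow_add]
          field_simp
  · have h1 := a_le_two hM hf hw ha j
    rw [hkj] at h1
    calc 2 ^ w * (a j * 2 ^ (46 * kk k0 i))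
        ≤ 2 ^ w * (2 ^ (46 * (4 * kk k0 i)) / 2 ^ (16 * w) * 2 ^ (46 * kk k0 i)) := by
          gcongr
      _ = 2 ^ (230 * kk k0 i) / 2 ^ (15 * w) := by
          rw [show 16 * w = 15 * w + w by ring, pow_add,
            show 230 * kk k0 i = 46 * (4 * kk k0 i) + 46 * kk k0 i by ring, pow_add]
          field_simp
      _ ≤ 2 ^ (230 * kk k0 i) / 2 ^ (232 * kk k0 i) := by
          apply two_pow_div_le (by positivity)
          omega
      _ = 1 / 2 ^ (2 * kk k0 i) := by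
          rw [show 232 * kk k0 i = 230 * kk k0 i + 2 * kk k0 i by ring, pow_add]
          field_simp
      _ ≤ 2 / 2 ^ (2 * kk k0 i) := by
          gcongr
          norm_num

theorem sum_pairs_le (hk : 3 ≤ k0) (hM : 0 < M) (hfs : ∑ e, fe e = f)
    (hfe : ∀ e, fe e * 2 ^ (62 * kk k0 e) ≤ 2 * M)
    (hw : 2 ^ (16 * w) * f ≤ M)
    (ha0 : ∀ e, 0 ≤ a e)
    (ha : ∀ e, a e ≤ (fe e : ℝ) * 2 ^ (46 * kk k0 e) / M) :
    3 * (2 ^ w * ((M : ℝ) * ∑ p ∈ prs E, a p.1 * a p.2)) ≤ f := by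
  have hM' : (0 : ℝ) < M := by exact_mod_cast hM
  have hf : ∀ e, fe e ≤ f := by
    intro e
    rw [← hfs]
    exact Finset.single_le_sum (f := fe) (fun i _ => Nat.zero_le _) (Finset.mem_univ e)
  have h1 : ∑ p ∈ prs E, a p.1 * a p.2 =
      ∑ j : Fin E, ∑ i : Fin E, if i.1 + 2 ≤ j.1 then a i * a j else 0 := by
    unfold prs
    rw [Finset.sum_filter, ← Finset.univ_product_univ, Finset.sum_product_right]
  have h2 : ∀ j : Fin E, 2 ^ w * ((M : ℝ) * ∑ i : Fin E, (if i.1 + 2 ≤ j.1 then a i * a j else 0)) ≤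
      (f : ℝ) * (1 / 8 * (1 / 2 : ℝ) ^ (j : ℕ)) := by
    intro j
    by_cases hj : 2 ≤ j.1
    · obtain ⟨i0, hi0⟩ := Nat.exists_eq_add_of_le hj
      have hj2 : j.1 = i0 + 2 := by omega
      have h3 : ∀ i : Fin E, (if i.1 + 2 ≤ j.1 then a i * a j else 0) ≤
          (fe i : ℝ) * (2 ^ (46 * kk k0 i0) / M * a j) := by
        intro i
        split_ifs with hi
        · have h4 : a i ≤ (fe i : ℝ) * 2 ^ (46 * kk k0 i0) / M := by
            refine (ha i).trans ?_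
            have h5 : kk k0 i.1 ≤ kk k0 i0 := kk_mono (by omega)
            gcongr
            norm_num
          calc a i * a j ≤ (fe i : ℝ) * 2 ^ (46 * kk k0 i0) / M * a j :=
                mul_le_mul_of_nonneg_right h4 (ha0 j)
            _ = _ := by ring
        · have := ha0 j
          positivity
      have h6 : ∑ i : Fin E, (if i.1 + 2 ≤ j.1 then a i * a j else 0) ≤
          (f : ℝ) * (2 ^ (46 * kk k0 i0) / M * a j) := by
        refine (Finset.sum_le_sum (fun i _ => h3 i)).trans ?_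
        rw [← Finset.sum_mul]
        have : (∑ i : Fin E, (fe i : ℝ)) = f := by exact_mod_cast hfs
        rw [this]
      calc 2 ^ w * ((M : ℝ) * ∑ i : Fin E, (if i.1 + 2 ≤ j.1 then a i * a j else 0))
          ≤ 2 ^ w * ((M : ℝ) * ((f : ℝ) * (2 ^ (46 * kk k0 i0) / M * a j))) := by
            gcongr
        _ = (f : ℝ) * (2 ^ w * (a j * 2 ^ (46 * kk k0 i0))) := by
            field_simp
        _ ≤ (f : ℝ) * (2 / 2 ^ (2 * kk k0 i0)) := by
            gcongr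
            exact z_term_le ha0 hM hf hfe hw ha j i0 hj2
        _ ≤ (f : ℝ) * (1 / 8 * (1 / 2 : ℝ) ^ (j : ℕ)) := by
            gcongr
            have h7 := le_kk (show 1 ≤ k0 by omega) i0
            refine (two_pow_div_le (by norm_num) (show 6 + i0 ≤ 2 * kk k0 i0 by omega)).trans ?_
            rw [hj2, pow_add, pow_add, one_div_pow, one_div_pow]
            apply le_of_eq
            field_simp
            norm_num
    · have h3 : ∀ i : Fin E, (if i.1 + 2 ≤ j.1 then a i * a j else 0) = 0 := by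
        intro i
        rw [if_neg (by omega)]
      simp only [h3, Finset.sum_const_zero, mul_zero]
      positivity
  rw [h1, Finset.mul_sum, Finset.mul_sum]
  calc 3 * ∑ j : Fin E, 2 ^ w * ((M : ℝ) * ∑ i : Fin E, (if i.1 + 2 ≤ j.1 then a i * a j else 0))
      ≤ 3 * ∑ j : Fin E, (f : ℝ) * (1 / 8 * (1 / 2 : ℝ) ^ (j : ℕ)) := by
        apply mul_le_mul_of_nonneg_left _ (by norm_num)
        exact Finset.sum_le_sum (fun j _ => h2 j)
    _ = 3 * (f : ℝ) * (1 / 8) * ∑ j : Fin E, (1 / 2 : ℝ) ^ (j : ℕ) := by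
        rw [Finset.mul_sum, Finset.mul_sum]
        apply Finset.sum_congr rfl
        intro j _
        ring
    _ ≤ 3 * (f : ℝ) * (1 / 8) * 2 := by
        gcongr
        exact sum_geom_le E
    _ ≤ f := by
        have : (0 : ℝ) ≤ f := Nat.cast_nonneg _
        linarith

end

end Pool.Agent.H63.WK
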